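import Pool.Agent.Work.MP_4545a8_an.OM.Trans

set_option autoImplicit false

/-!
Non-crossing points give short invariant intervals; the corollary for differentiable maps and maps
with isolated fibres.
-/

namespace Pool.Agent.MP4545.OM

open Set Function Filter Topology
open Pool.Agent.MP4545

/-- two points of `NC h δ` at distance less than `δ` bound an `h`-invariant interval -/
lemma nc_maps {h : ℝ → ℝ} {δ p q : ℝ} (hp : h p = p) (hq : h q = q) (hpn : p ∈ NC h δ)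
    (hqn : q ∈ NC h δ) (hd : q - p < δ) : MapsTo h (Icc p q) (Icc p q) := by
  intro u hu
  constructor
  · rcases eq_or_lt_of_le hu.1 with h1 | h1
    · rw [← h1, hp]
    · have := hpn u (by rw [abs_lt]; constructor <;> linarith [hu.1, hu.2])
      by_contra hc
      push Not at hc
      nlinarith
  · rcases eq_or_lt_of_le hu.2 with h1 | h1
    · rw [h1, hq]
    · have := hqn u (by rw [abs_lt]; constructor <;> linarith [hu.1, hu.2])
      by_contra hc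
      push Not at hc
      nlinarith

lemma nc_interval {h : ℝ → ℝ} {M : Set ℝ} (hfix : ∀ z ∈ M, h z = z) {m1 m2 : ℝ} (h1 : m1 ∈ M)
    (h2 : m2 ∈ M) (h12 : m1 < m2) (hT : ¬ (M ∩ {z | ∃ δ > 0, z ∈ NC h δ}).Countable) :
    ∃ x y : ℝ, x ∈ M ∧ y ∈ M ∧ MapsTo h (Icc x y) (Icc x y) ∧ (M ∩ Ioo x y).Nonempty ∧
      ¬ M ⊆ Icc x y := by
  obtain ⟨n, hn⟩ : ∃ n : ℕ, ¬ (M ∩ NC h (1 / ((n : ℝ) + 1))).Countable := by
    by_contra hcon
    push Not at hcon
    apply hT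
    refine (countable_iUnion hcon).mono ?_
    rintro z ⟨hz, δ, hδ, hzδ⟩
    obtain ⟨n, hn⟩ := exists_nat_one_div_lt hδ
    exact mem_iUnion.2 ⟨n, hz, fun u hu => hzδ u (hu.trans hn)⟩
  have hpos : (0 : ℝ) < 1 / ((n : ℝ) + 1) := by positivity
  obtain ⟨T', hT'T, hT', hdiam⟩ := exists_small hn (δ := min (1 / ((n : ℝ) + 1)) (m2 - m1))
    (lt_min hpos (by linarith))
  obtain ⟨z, hz, p, hp, q, hq, hpz, hzq, -, -⟩ := exists_two_sided hT'
  have hpq := hdiam q hq p hp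
  rw [abs_lt, lt_min_iff] at hpq
  refine ⟨p, q, (hT'T hp).1, (hT'T hq).1, nc_maps (hfix p (hT'T hp).1) (hfix q (hT'T hq).1)
    (hT'T hp).2 (hT'T hq).2 hpq.2.1, ⟨z, (hT'T hz).1, hpz, hzq⟩, ?_⟩
  intro hsub
  have a1 := hsub h1
  have a2 := hsub h2
  linarith [a1.1, a2.2, hpq.2.2]

variable {f g : ℝ → ℝ} {a b : ℝ}

lemma word_mem (S : Sys f g a b) {k l : ℕ} (hkl : 0 < k + l) (z : ℝ) :
    f^[k] (g^[l] z) ∈ Icc a b := by
  rcases Nat.eq_zero_or_pos k with hk | hk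
  · obtain ⟨j, rfl⟩ : ∃ j, l = j + 1 := ⟨l - 1, by omega⟩
    rw [hk, iterate_succ_apply']; exact S.rg _
  · obtain ⟨j, rfl⟩ : ∃ j, k = j + 1 := ⟨k - 1, by omega⟩
    rw [iterate_succ_apply']; exact S.rf _

/-- the corollary -/
theorem oneMap_cor (S : Sys f g a b) {k l : ℕ} (hkl : 0 < k + l)
    (H : {z | f^[k] (g^[l] z) = z ∧
      ¬ (DifferentiableWithinAt ℝ (f^[k] ∘ g^[l]) (Icc a b) z ∨
        ∃ δ > 0, ∀ u ∈ Icc a b, |u - z| < δ → f^[k] (g^[l] u) = z → u = z)}.Countable) :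
    ∃ x ∈ Icc a b, x ∈ periodicPts f ∩ periodicPts g := by
  apply oneMap_main S hkl
  intro M hMab hM hMne hMfix _ _ _
  have hunc : ¬ (M ∩ {z | ∃ δ > 0, z ∈ NC (f^[k] ∘ g^[l]) δ}).Countable := by
    intro hcount
    apply perfect_uncountable hM hMne
    refine ((hcount.union H).union (two_sided_countable M)).mono ?_
    intro z hz
    by_contra hcon
    have h1 : ¬ ∃ δ > 0, z ∈ NC (f^[k] ∘ g^[l]) δ := fun h => hcon (Or.inl (Or.inl ⟨hz, h⟩))
    have h2 : DifferentiableWithinAt ℝ (f^[k] ∘ g^[l]) (Icc a b) z ∨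
          ∃ δ > 0, ∀ u ∈ Icc a b, |u - z| < δ → f^[k] (g^[l] u) = z → u = z := by
      by_contra h
      exact hcon (Or.inl (Or.inr ⟨hMfix z hz, h⟩))
    have h3 : (∀ δ > 0, ∃ y ∈ M, z < y ∧ y < z + δ) ∧ (∀ δ > 0, ∃ y ∈ M, z - δ < y ∧ y < z) := by
      by_contra h
      exact hcon (Or.inr ⟨hz, h⟩)
    apply h1
    rcases h2 with h2 | h2
    · exact nc_of_diff hMab hMfix (hMfix z hz) h3.1 h3.2 h2
    · obtain ⟨δ, hδ, hiso⟩ := h2
      obtain ⟨y, hy, hy1, hy2⟩ := h3.1 δ hδ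
      obtain ⟨w, hw, hw1, hw2⟩ := h3.2 δ hδ
      have hya := hMab hy
      have hwa := hMab hw
      refine nc_of_isolated ((S.cf.iterate k).comp (S.cg.iterate l)) hMfix h3.1 h3.2
        ⟨min (y - z) (z - w), lt_min (by linarith) (by linarith), ?_⟩
      intro u hu hfu
      rw [lt_min_iff, abs_lt, abs_lt] at hu
      exact hiso u ⟨by linarith [hu.2.1, hwa.1], by linarith [hu.1.2, hya.2]⟩
        (by rw [abs_lt]; constructor <;> linarith [hu.2.1, hu.1.2]) hfu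
  obtain ⟨t, -, ht1, ht2⟩ := exists_two hM isOpen_univ (by rwa [univ_inter])
  obtain ⟨m1, hm1, hm1', -⟩ := ht1 1 one_pos
  obtain ⟨m2, hm2, -, hm2'⟩ := ht2 1 one_pos
  obtain ⟨x, y, -, -, h1, h2, h3⟩ := nc_interval hMfix hm2 hm1 (hm2'.trans hm1') hunc
  exact ⟨x, y, 1, one_pos, fun u hu => h1 hu.1, h2, h3⟩

end Pool.Agent.MP4545.OM
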