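import Pool.Agent.Work.MP_4545a8_an.OM.Spread
import Pool.Agent.Work.MP_4545a8_an.Joint
import Pool.Agent.Work.MP_4545a8_an.Ext

set_option autoImplicit false

/-!
Exact pairs: a minimal set of fixed points of a word `H = F^k ∘ G^l` all neighbourhoods of all
points of which spread over the whole interval under all iterates of `H`.
-/

namespace Pool.Agent.MP4545.OM

open Set Function Filter Topology
open Pool.Agent.MP4545

variable {F G : ℝ → ℝ}

/-- the points all neighbourhoods of which have dense `T`-orbit in `[0,1]` -/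
def Big (T : ℝ → ℝ) : Set ℝ :=
  {y | y ∈ Icc (0 : ℝ) 1 ∧ ∀ O : Set ℝ, IsOpen O → y ∈ O →
    Icc (0 : ℝ) 1 ⊆ closure (⋃ n : ℕ, T^[n] '' (O ∩ Icc (0 : ℝ) 1))}

lemma big_closed (T : ℝ → ℝ) : IsClosed (Big T) := by
  apply isClosed_of_closure_subset
  intro y hy
  refine ⟨closure_minimal (fun z hz => hz.1) isClosed_Icc hy, ?_⟩
  intro O hO hyO
  obtain ⟨z, hzO, hz⟩ := mem_closure_iff.1 hy O hO hyO
  exact hz.2 O hO hzO

lemma big_iter {T : ℝ → ℝ} (m : ℕ) : Big T^[m] ⊆ Big T := by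
  rintro y ⟨hy, h⟩
  refine ⟨hy, fun O hO hyO => (h O hO hyO).trans (closure_mono ?_)⟩
  apply iUnion_subset
  intro n
  rw [← iterate_mul]
  exact subset_iUnion (fun n : ℕ => T^[n] '' (O ∩ Icc (0 : ℝ) 1)) (m * n)

lemma big_inv {T W : ℝ → ℝ} (cW : Continuous W) (hW : W '' Icc 0 1 = Icc 0 1)
    (hc : Function.Commute T W) : ∀ y ∈ Big T, W y ∈ Big T := by
  rintro y ⟨hy, h⟩
  refine ⟨hW ▸ mem_image_of_mem W hy, ?_⟩
  intro O hO hyO
  have h1 := h (W ⁻¹' O) (hO.preimage cW) hyO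
  calc Icc (0 : ℝ) 1 = W '' Icc 0 1 := hW.symm
    _ ⊆ W '' closure (⋃ n : ℕ, T^[n] '' (W ⁻¹' O ∩ Icc (0 : ℝ) 1)) := image_mono h1
    _ ⊆ closure (W '' (⋃ n : ℕ, T^[n] '' (W ⁻¹' O ∩ Icc (0 : ℝ) 1))) :=
        image_closure_subset_closure_image cW
    _ ⊆ closure (⋃ n : ℕ, T^[n] '' (O ∩ Icc (0 : ℝ) 1)) := by
        apply closure_mono
        rintro _ ⟨z, hz, rfl⟩
        obtain ⟨n, u, ⟨hu1, hu2⟩, rfl⟩ := mem_iUnion.1 hz
        refine mem_iUnion.2 ⟨n, W u, ⟨hu1, hW ▸ mem_image_of_mem W hu2⟩, ?_⟩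
        exact (hc.iterate_left n).eq u

lemma word_comm {X : Type*} {F G : X → X} (hfg : Function.Commute F G) (k l : ℕ) :
    Function.Commute (F^[k] ∘ G^[l]) F ∧ Function.Commute (F^[k] ∘ G^[l]) G := by
  constructor
  · intro z
    show F^[k] (G^[l] (F z)) = F (F^[k] (G^[l] z))
    rw [← (hfg.iterate_right l).eq]
    exact (iterate_succ_apply F k _).symm.trans (iterate_succ_apply' F k _)
  · intro z
    show F^[k] (G^[l] (G z)) = G (F^[k] (G^[l] z))
    rw [← (hfg.iterate_left k).eq]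
    exact congrArg _ ((iterate_succ_apply G l _).symm.trans (iterate_succ_apply' G l _))

/-- the exactness hypothesis for `F ∘ G` -/
def Ex1 (F G : ℝ → ℝ) : Prop :=
  ∀ p q : ℝ, 0 ≤ p → p < q → q ≤ 1 → ∃ N, ∀ n, N ≤ n → (F ∘ G)^[n] '' Icc p q = Icc (0 : ℝ) 1

lemma exists_fix (T : ℝ → ℝ) (cT : Continuous T) (hT : MapsTo T (Icc 0 1) (Icc 0 1)) :
    ∃ x ∈ Icc (0 : ℝ) 1, T x = x := by
  obtain ⟨x, hx, hx'⟩ := ivt_zero (F := fun x => T x - x) (by fun_prop) zero_le_one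
    (by linarith [(hT (show (0 : ℝ) ∈ Icc (0 : ℝ) 1 from ⟨le_rfl, zero_le_one⟩)).1])
    (by linarith [(hT (show (1 : ℝ) ∈ Icc (0 : ℝ) 1 from ⟨zero_le_one, le_rfl⟩)).2])
  exact ⟨x, hx, by linarith⟩

variable (S : Sys F G 0 1)

include S

lemma mapsF (n : ℕ) : MapsTo F^[n] (Icc 0 1) (Icc 0 1) :=
  MapsTo.iterate (fun y _ => S.rf y) n

lemma mapsG (n : ℕ) : MapsTo G^[n] (Icc 0 1) (Icc 0 1) :=
  MapsTo.iterate (fun y _ => S.rg y) n

lemma surjFG (hex : Ex1 F G) : F '' Icc 0 1 = Icc 0 1 ∧ G '' Icc 0 1 = Icc 0 1 := by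
  have hfg : Function.Commute F G := fun x => S.comm x
  obtain ⟨N, hN⟩ := hex 0 1 le_rfl one_pos le_rfl
  have h1 := hN (N + 1) (by omega)
  rw [hfg.comp_iterate] at h1
  constructor
  · apply Subset.antisymm
    · rintro _ ⟨x, -, rfl⟩; exact S.rf x
    · intro y hy
      rw [← h1] at hy
      obtain ⟨x, hx, rfl⟩ := hy
      refine ⟨F^[N] (G^[N + 1] x), mapsF S N (mapsG S _ hx), ?_⟩
      exact (iterate_succ_apply' F N _).symm
  · apply Subset.antisymm
    · rintro _ ⟨x, -, rfl⟩; exact S.rg x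
    · intro y hy
      rw [← h1] at hy
      obtain ⟨x, hx, rfl⟩ := hy
      refine ⟨F^[N + 1] (G^[N] x), mapsF S _ (mapsG S _ hx), ?_⟩
      show G (F^[N + 1] (G^[N] x)) = F^[N + 1] (G^[N + 1] x)
      rw [iterate_succ_apply' G]
      exact ((hfg.iterate_left (N + 1)).eq _).symm

variable (hno : NoCommon F G) (hex : Ex1 F G) {k l : ℕ} (hkl : 0 < k + l)

include hno hex hkl

/-- the fixed points of `F^k ∘ G^l` contain no interval -/
lemma fix_thin {p q : ℝ} (hp : 0 ≤ p) (hpq : p < q) (hq : q ≤ 1) :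
    ∃ y ∈ Icc p q, F^[k] (G^[l] y) ≠ y := by
  by_contra hcon
  push Not at hcon
  have hfg : Function.Commute F G := fun x => S.comm x
  have hall : ∀ y ∈ Icc (0 : ℝ) 1, F^[k] (G^[l] y) = y := by
    intro y hy
    obtain ⟨N, hN⟩ := hex p q hp hpq hq
    rw [← hN N le_rfl] at hy
    obtain ⟨x, hx, rfl⟩ := hy
    have hc1 : Function.Commute (F ∘ G) F := by
      intro z
      show F (G (F z)) = F (F (G z))
      rw [← hfg.eq z]
    have hc2 : Function.Commute (F ∘ G) G := by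
      intro z
      show F (G (G z)) = G (F (G z))
      rw [hfg.eq]
    have hc3 : Function.Commute (F ∘ G)^[N] (F^[k] ∘ G^[l]) :=
      Function.Commute.iterate_left (fun z => by
        have h1 := (hc1.iterate_right k).eq
        have h2 := (hc2.iterate_right l).eq
        show (F ∘ G) (F^[k] (G^[l] z)) = F^[k] (G^[l] ((F ∘ G) z))
        rw [h1, h2]) N
    have := hc3.eq x
    show (F^[k] ∘ G^[l]) ((F ∘ G)^[N] x) = (F ∘ G)^[N] x
    rw [← this]
    show (F ∘ G)^[N] (F^[k] (G^[l] x)) = (F ∘ G)^[N] x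
    rw [hcon x hx]
  rcases Nat.eq_zero_or_pos k with hk | hk
  · obtain ⟨x, hx, hfx⟩ := exists_fix F S.cf (fun y _ => S.rf y)
    have h1 := hall x hx
    rw [hk] at h1
    exact hno x 1 l one_pos (by omega) hfx h1
  · obtain ⟨x, hx, hgx⟩ := exists_fix G S.cg (fun y _ => S.rg y)
    have h1 := hall x hx
    rw [iterate_fixed hgx] at h1
    exact hno x k 1 hk one_pos h1 hgx

/-- a fixed point of `F^k ∘ G^l` in `Big` -/
lemma exists_big {j : ℕ} (hj : 0 < j) :
    ∃ y ∈ Big (F^[k] ∘ G^[l])^[j], F^[k] (G^[l] y) = y := by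
  have hfg : Function.Commute F G := fun x => S.comm x
  set H : ℝ → ℝ := F^[k] ∘ G^[l] with hH
  have cH : Continuous H := (S.cf.iterate k).comp (S.cg.iterate l)
  have mH : MapsTo H (Icc 0 1) (Icc 0 1) := (mapsF S k).comp (mapsG S l)
  have hHF : Function.Commute H F := (word_comm hfg k l).1
  have hHG : Function.Commute H G := (word_comm hfg k l).2
  -- two fixed points
  obtain ⟨x0, hx0, hx0'⟩ := exists_fix H cH mH
  obtain ⟨x1, hx1, hx1', hne⟩ : ∃ x1 ∈ Icc (0 : ℝ) 1, H x1 = x1 ∧ x1 ≠ x0 := by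
    by_contra hcon
    push Not at hcon
    have e1 := hcon (F x0) (S.rf _) (by rw [hHF.eq, hx0'])
    have e2 := hcon (G x0) (S.rg _) (by rw [hHG.eq, hx0'])
    exact hno x0 1 1 one_pos one_pos e1 e2
  obtain ⟨s, t, hst, hs, ht, hs', ht'⟩ : ∃ s t : ℝ, s < t ∧ s ∈ Icc (0 : ℝ) 1 ∧
      t ∈ Icc (0 : ℝ) 1 ∧ H s = s ∧ H t = t := by
    rcases lt_or_gt_of_ne hne with h | h
    · exact ⟨x1, x0, h, hx1, hx0, hx1', hx0'⟩
    · exact ⟨x0, x1, h, hx0, hx1, hx0', hx1'⟩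
  obtain ⟨y0, hy0, hy0'⟩ := fix_thin S hno hex hkl hs.1 hst ht.2
  have hsy : s < y0 := lt_of_le_of_ne hy0.1 (fun h => hy0' (h ▸ hs'))
  have hyt : y0 < t := lt_of_le_of_ne hy0.2 (fun h => hy0' (h ▸ ht'))
  obtain ⟨p, hp, hpfix, hsp⟩ := exists_spread cH hs' ht' hy0' hsy hyt
  obtain ⟨u, v, huv, huvs, hO⟩ := hsp j hj
  have hst01 : Icc s t ⊆ Icc 0 1 := Icc_subset_Icc hs.1 ht.2
  have hu0 : 0 ≤ u := (hst01 (huvs ⟨le_rfl, huv.le⟩)).1
  have hv1 : v ≤ 1 := (hst01 (huvs ⟨huv.le, le_rfl⟩)).2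
  obtain ⟨N0, hN0⟩ := hex u v hu0 huv hv1
  set N := max N0 (max (k * j) (l * j)) with hN
  have hN1 : N0 ≤ N := le_max_left _ _
  have hN2 : k * j ≤ N := (le_max_left _ _).trans (le_max_right _ _)
  have hN3 : l * j ≤ N := (le_max_right _ _).trans (le_max_right _ _)
  set W : ℝ → ℝ := F^[N - k * j] ∘ G^[N - l * j] with hW
  have cW : Continuous W := (S.cf.iterate _).comp (S.cg.iterate _)
  have mW : MapsTo W (Icc 0 1) (Icc 0 1) := (mapsF S _).comp (mapsG S _)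
  have hHW : Function.Commute H W := by
    intro z
    show H (F^[N - k * j] (G^[N - l * j] z)) = F^[N - k * j] (G^[N - l * j] (H z))
    rw [(hHF.iterate_right _).eq, (hHG.iterate_right _).eq]
  have hHj : ∀ z, H^[j] z = F^[k * j] (G^[l * j] z) := by
    intro z
    rw [hH, (hfg.iterate_iterate k l).comp_iterate, ← iterate_mul, ← iterate_mul]
    rfl
  have hkey : ∀ z, H^[j] (W z) = (F ∘ G)^[N] z := by
    intro z
    rw [hfg.comp_iterate, hHj]
    show F^[k * j] (G^[l * j] (F^[N - k * j] (G^[N - l * j] z))) = F^[N] (G^[N] z)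
    rw [← (hfg.iterate_iterate (N - k * j) (l * j)).eq, ← iterate_add_apply,
      ← iterate_add_apply, show k * j + (N - k * j) = N by omega,
      show l * j + (N - l * j) = N by omega]
  refine ⟨W p, ⟨mW (hst01 hp), ?_⟩, ?_⟩
  · intro O hOo hpO
    refine Subset.trans ?_ subset_closure
    intro y hy
    rw [← hN0 N hN1] at hy
    obtain ⟨z, hz, rfl⟩ := hy
    obtain ⟨n, w, ⟨hw1, hw2⟩, rfl⟩ := mem_iUnion.1 (hO (W ⁻¹' O) (hOo.preimage cW) hpO hz)
    refine mem_iUnion.2 ⟨n + 1, W w, ⟨hw1, mW (hst01 hw2)⟩, ?_⟩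
    rw [← hkey, iterate_succ_apply' (H^[j]), ← iterate_mul, ← (hHW.iterate_left (j * n)).eq]
  · show H (W p) = W p
    rw [hHW.eq, hpfix]

/-- **The big minimal set.** -/
theorem exists_bigMin : ∃ M : Set ℝ, JMin F G
    (⋂ j : ℕ, {y | y ∈ Big (F^[k] ∘ G^[l])^[j + 1] ∧ F^[k] (G^[l] y) = y}) M := by
  have hfg : Function.Commute F G := fun x => S.comm x
  set H : ℝ → ℝ := F^[k] ∘ G^[l] with hH
  have cH : Continuous H := (S.cf.iterate k).comp (S.cg.iterate l)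
  have hHF : Function.Commute H F := (word_comm hfg k l).1
  have hHG : Function.Commute H G := (word_comm hfg k l).2
  obtain ⟨sF, sG⟩ := surjFG S hex
  set Z : ℕ → Set ℝ := fun j => {y | y ∈ Big H^[j + 1] ∧ F^[k] (G^[l] y) = y} with hZ
  have Zcl : ∀ j, IsClosed (Z j) := fun j =>
    (big_closed _).inter (isClosed_eq cH continuous_id)
  have Zne : ∀ j, (Z j).Nonempty := fun j => by
    obtain ⟨y, hy, hy'⟩ := exists_big S hno hex hkl (Nat.succ_pos j)
    exact ⟨y, hy, hy'⟩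
  have Zsub : ∀ j, Z j ⊆ Icc 0 1 := fun j y hy => hy.1.1
  have ZF : ∀ j, ∀ y ∈ Z j, F y ∈ Z j := by
    intro j y hy
    refine ⟨big_inv S.cf sF (hHF.iterate_left _) y hy.1, ?_⟩
    have := hHF.eq y
    have h2 : H y = y := hy.2
    show H (F y) = F y
    rw [this, h2]
  have ZG : ∀ j, ∀ y ∈ Z j, G y ∈ Z j := by
    intro j y hy
    refine ⟨big_inv S.cg sG (hHG.iterate_left _) y hy.1, ?_⟩
    have := hHG.eq y
    have h2 : H y = y := hy.2
    show H (G y) = G y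
    rw [this, h2]
  have Zdir : Directed (· ⊇ ·) Z := by
    intro i j
    refine ⟨(i + 1) * (j + 1) - 1, ?_, ?_⟩
    · rintro y ⟨hy, hy'⟩
      refine ⟨?_, hy'⟩
      have e : (i + 1) * (j + 1) - 1 + 1 = (i + 1) * (j + 1) := by
        have : 0 < (i + 1) * (j + 1) := by positivity
        omega
      rw [e, iterate_mul] at hy
      exact big_iter _ hy
    · rintro y ⟨hy, hy'⟩
      refine ⟨?_, hy'⟩
      have e : (i + 1) * (j + 1) - 1 + 1 = (j + 1) * (i + 1) := by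
        have : 0 < (i + 1) * (j + 1) := by positivity
        rw [mul_comm (j + 1)]
        omega
      rw [e, iterate_mul] at hy
      exact big_iter _ hy
  have hne : (⋂ j, Z j).Nonempty :=
    IsCompact.nonempty_iInter_of_directed_nonempty_isCompact_isClosed Z Zdir Zne
      (fun j => isCompact_Icc.of_isClosed_subset (Zcl j) (Zsub j)) Zcl
  refine exists_jmin (a := 0) (b := 1) (isClosed_iInter Zcl) hne
    ((iInter_subset Z 0).trans (Zsub 0)) ?_ ?_
  · intro y hy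
    exact mem_iInter.2 fun j => ZF j y (mem_iInter.1 hy j)
  · intro y hy
    exact mem_iInter.2 fun j => ZG j y (mem_iInter.1 hy j)

end Pool.Agent.MP4545.OM
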