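import Pool.Agent.Work.MP_4545a8_an.LemmaA

set_option autoImplicit false

/-!
A fixed point of an interval map which repels on one side: every neighbourhood spreads over a fixed
one-sided neighbourhood.
-/

namespace Pool.Agent.MP4545.OM

open Set Function Filter Topology
open Pool.Agent.MP4545

/-- right version of the spreading lemma -/
lemma spread_right {T : ℝ → ℝ} (cT : Continuous T) {p q : ℝ} (hp : T p = p)
    (hT : ∀ y ∈ Ioo p q, y < T y) {r : ℝ} (hr : r ∈ Ioo p q) {O : Set ℝ} (hO : IsOpen O)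
    (hpO : p ∈ O) : Icc p r ⊆ ⋃ n : ℕ, T^[n] '' (O ∩ Icc p q) := by
  obtain ⟨ε, hε, hball⟩ := Metric.isOpen_iff.1 hO p hpO
  set δ := min (ε / 2) (r - p) with hδ
  have hδ0 : 0 < δ := lt_min (by linarith) (by linarith [hr.1])
  have hδr : p + δ ≤ r := by linarith [min_le_right (ε / 2) (r - p)]
  set A : Set ℝ := Icc p (p + δ) with hA
  have hAO : A ⊆ O ∩ Icc p q := by
    intro y hy
    refine ⟨hball ?_, hy.1, by linarith [hy.2, hr.2]⟩
    rw [Metric.mem_ball, Real.dist_eq, abs_lt]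
    constructor <;> linarith [hy.1, hy.2, min_le_left (ε / 2) (r - p)]
  set V : Set ℝ := ⋃ n : ℕ, T^[n] '' A with hV
  have hfix : ∀ n : ℕ, T^[n] p = p := fun n => iterate_fixed hp n
  have hpA : p ∈ A := ⟨le_rfl, by linarith⟩
  have hAV : A ⊆ V := fun y hy => mem_iUnion.2 ⟨0, y, hy, rfl⟩
  have hpV : p ∈ V := hAV hpA
  have hVc : IsPreconnected V :=
    isPreconnected_iUnion ⟨p, mem_iInter.2 fun n => ⟨p, hpA, hfix n⟩⟩
      fun n => isPreconnected_Icc.image _ (cT.iterate n).continuousOn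
  have hVo : OrdConnected V := hVc.ordConnected
  have hTV : ∀ y ∈ V, T y ∈ V := by
    intro y hy
    obtain ⟨n, u, hu, rfl⟩ := mem_iUnion.1 hy
    exact mem_iUnion.2 ⟨n + 1, u, hu, by rw [iterate_succ_apply']⟩
  have hrV : r ∈ V := by
    by_contra hcon
    have hbd : ∀ v ∈ V, v < r := by
      intro v hv
      by_contra h
      push Not at h
      exact hcon (hVo.out hpV hv ⟨hr.1.le, h⟩)
    have hba : BddAbove V := ⟨r, fun v hv => (hbd v hv).le⟩
    set s := sSup V with hs
    have h1 : p + δ ≤ s := le_csSup hba (hAV ⟨by linarith, le_rfl⟩)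
    have h2 : s ≤ r := csSup_le ⟨p, hpV⟩ fun v hv => (hbd v hv).le
    have hTs : s < T s := hT s ⟨by linarith, by linarith [hr.2]⟩
    obtain ⟨η, hη, hη'⟩ := Metric.continuousAt_iff.1 (cT.continuousAt (x := s)) (T s - s)
      (by linarith)
    obtain ⟨t, ht, hts⟩ := exists_lt_of_lt_csSup ⟨p, hpV⟩ (show s - η < sSup V by linarith)
    have hts' : t ≤ s := le_csSup hba ht
    have h3 := hη' (x := t) (by rw [Real.dist_eq, abs_lt]; constructor <;> linarith)
    rw [Real.dist_eq, abs_lt] at h3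
    have h4 : T t ≤ s := le_csSup hba (hTV t ht)
    linarith [h3.1]
  exact (hVo.out hpV hrV).trans (iUnion_mono fun n => image_mono hAO)

lemma iterate_neg (f : ℝ → ℝ) (n : ℕ) (x : ℝ) :
    (fun x => - f (-x))^[n] x = - (f^[n] (-x)) := by
  induction n with
  | zero => simp
  | succ n ih => rw [iterate_succ_apply', iterate_succ_apply', ih]; simp

/-- left version of the spreading lemma -/
lemma spread_left {T : ℝ → ℝ} (cT : Continuous T) {p q : ℝ} (hq : T q = q)
    (hT : ∀ y ∈ Ioo p q, T y < y) {r : ℝ} (hr : r ∈ Ioo p q) {O : Set ℝ} (hO : IsOpen O)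
    (hqO : q ∈ O) : Icc r q ⊆ ⋃ n : ℕ, T^[n] '' (O ∩ Icc p q) := by
  have h := spread_right (T := fun x => - T (-x)) (by fun_prop) (p := -q) (q := -p)
    (by simp [hq]) (fun y hy => by
      have := hT (-y) ⟨by linarith [hy.2], by linarith [hy.1]⟩
      linarith) (r := -r) ⟨by linarith [hr.2], by linarith [hr.1]⟩ (O := -O) hO.neg
    (by simpa using hqO)
  intro y hy
  obtain ⟨n, u, ⟨hu1, hu2⟩, hun⟩ := mem_iUnion.1 (h (show -y ∈ Icc (-q) (-r) from
    ⟨by linarith [hy.2], by linarith [hy.1]⟩))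
  rw [iterate_neg] at hun
  refine mem_iUnion.2 ⟨n, -u, ⟨hu1, by linarith [hu2.2], by linarith [hu2.1]⟩, ?_⟩
  linarith

/-- iterates still repel on the right -/
lemma iter_right {T : ℝ → ℝ} (cT : Continuous T) {p q : ℝ} (hpq : p < q) (hp : T p = p)
    (hT : ∀ y ∈ Ioo p q, y < T y) (j : ℕ) :
    ∃ q' ∈ Ioc p q, ∀ y ∈ Ioo p q', y < T^[j + 1] y := by
  induction j with
  | zero => exact ⟨q, ⟨hpq, le_rfl⟩, fun y hy => by simpa using hT y hy⟩
  | succ j ih =>
    obtain ⟨q', hq', h⟩ := ih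
    obtain ⟨η, hη, hη'⟩ := Metric.continuousAt_iff.1 ((cT.iterate (j + 1)).continuousAt (x := p))
      (q - p) (by linarith)
    rw [iterate_fixed hp] at hη'
    refine ⟨min q' (p + η), ⟨lt_min hq'.1 (by linarith), (min_le_left _ _).trans hq'.2⟩, ?_⟩
    intro y hy
    have h1 := lt_min_iff.1 hy.2
    have h2 := h y ⟨hy.1, h1.1⟩
    have h3 := hη' (x := y) (by rw [Real.dist_eq, abs_lt]; constructor <;> linarith [hy.1])
    rw [Real.dist_eq, abs_lt] at h3
    rw [iterate_succ_apply']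
    exact h2.trans (hT _ ⟨by linarith [hy.1], by linarith⟩)

/-- a non-degenerate gap between two fixed points gives a fixed point all neighbourhoods of which
spread over a fixed interval, under all iterates `T^[j]` -/
theorem exists_spread {T : ℝ → ℝ} (cT : Continuous T) {x0 y0 x1 : ℝ} (h0 : T x0 = x0)
    (h1 : T x1 = x1) (hy : T y0 ≠ y0) (h01 : x0 < y0) (h11 : y0 < x1) :
    ∃ p ∈ Icc x0 x1, T p = p ∧ ∀ j : ℕ, 0 < j → ∃ u v : ℝ, u < v ∧ Icc u v ⊆ Icc x0 x1 ∧
      ∀ O : Set ℝ, IsOpen O → p ∈ O → Icc u v ⊆ ⋃ n : ℕ, (T^[j])^[n] '' (O ∩ Icc x0 x1) := by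
  have hcl : IsClosed {x | T x = x} := isClosed_eq cT continuous_id
  obtain ⟨p, hp, hpmax⟩ := ((isCompact_Icc (a := x0) (b := y0)).inter_right
    hcl).exists_isGreatest ⟨x0, ⟨le_rfl, h01.le⟩, h0⟩
  obtain ⟨q, hq, hqmin⟩ := ((isCompact_Icc (a := y0) (b := x1)).inter_right
    hcl).exists_isLeast ⟨x1, ⟨h11.le, le_rfl⟩, h1⟩
  have hTp : T p = p := hp.2
  have hTq : T q = q := hq.2
  have hpy : p < y0 := lt_of_le_of_ne hp.1.2 (fun h => hy (h ▸ hTp))
  have hyq : y0 < q := lt_of_le_of_ne hq.1.1 (fun h => hy (h ▸ hTq))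
  have hne : ∀ y ∈ Ioo p q, T y ≠ y := by
    intro y hy' hfix
    rcases le_total y y0 with h | h
    · have := hpmax ⟨⟨hp.1.1.trans hy'.1.le, h⟩, hfix⟩
      linarith [hy'.1]
    · have := hqmin ⟨⟨h, hy'.2.le.trans hq.1.2⟩, hfix⟩
      linarith [hy'.2]
  have hsub : Icc p q ⊆ Icc x0 x1 := Icc_subset_Icc hp.1.1 hq.1.2
  have hpq : p < q := hpy.trans hyq
  have sgn : (∀ y ∈ Ioo p q, y < T y) ∨ (∀ y ∈ Ioo p q, T y < y) := by
    rcases lt_or_gt_of_ne hy with h | h
    · right
      intro y hy'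
      by_contra hcon
      push Not at hcon
      rcases le_total y y0 with h2 | h2
      · obtain ⟨v, hv, ev⟩ := ivt_zero (F := fun x => T x - x) (by fun_prop) h2
          (by linarith) (by linarith)
        exact hne v ⟨by linarith [hy'.1, hv.1], by linarith [hv.2]⟩ (by linarith)
      · obtain ⟨v, hv, ev⟩ := ivt_zero' (F := fun x => T x - x) (by fun_prop) h2
          (by linarith) (by linarith)
        exact hne v ⟨by linarith [hv.1], by linarith [hy'.2, hv.2]⟩ (by linarith)
    · left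
      intro y hy'
      by_contra hcon
      push Not at hcon
      rcases le_total y y0 with h2 | h2
      · obtain ⟨v, hv, ev⟩ := ivt_zero' (F := fun x => T x - x) (by fun_prop) h2
          (by linarith) (by linarith)
        exact hne v ⟨by linarith [hy'.1, hv.1], by linarith [hv.2]⟩ (by linarith)
      · obtain ⟨v, hv, ev⟩ := ivt_zero (F := fun x => T x - x) (by fun_prop) h2
          (by linarith) (by linarith)
        exact hne v ⟨by linarith [hv.1], by linarith [hy'.2, hv.2]⟩ (by linarith)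
  rcases sgn with hs | hs
  · refine ⟨p, hsub ⟨le_rfl, hpq.le⟩, hTp, ?_⟩
    intro j hj
    obtain ⟨i, rfl⟩ : ∃ i, j = i + 1 := ⟨j - 1, by omega⟩
    obtain ⟨q', hq', hs'⟩ := iter_right cT hpq hTp hs i
    refine ⟨p, (p + q') / 2, by linarith [hq'.1], ?_, ?_⟩
    · exact (Icc_subset_Icc le_rfl (by linarith [hq'.1, hq'.2])).trans hsub
    · intro O hO hpO
      refine (spread_right (cT.iterate (i + 1)) (iterate_fixed hTp _) hs'
        ⟨by linarith [hq'.1], by linarith [hq'.1]⟩ hO hpO).trans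
        (iUnion_mono fun n => image_mono (inter_subset_inter_right _
          ((Icc_subset_Icc le_rfl hq'.2).trans hsub)))
  · refine ⟨q, hsub ⟨hpq.le, le_rfl⟩, hTq, ?_⟩
    intro j hj
    obtain ⟨i, rfl⟩ : ∃ i, j = i + 1 := ⟨j - 1, by omega⟩
    obtain ⟨p', hp', hs'⟩ := iter_right (T := fun x => - T (-x)) (by fun_prop)
      (p := -q) (q := -p) (by linarith) (by simp [hTq]) (fun y hy => by
        have := hs (-y) ⟨by linarith [hy.2], by linarith [hy.1]⟩
        linarith) i
    have hs'' : ∀ y ∈ Ioo (-p') q, T^[i + 1] y < y := by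
      intro y hy
      have := hs' (-y) ⟨by linarith [hy.2], by linarith [hy.1]⟩
      rw [iterate_neg, neg_neg] at this
      linarith
    refine ⟨(-p' + q) / 2, q, by linarith [hp'.1], ?_, ?_⟩
    · exact (Icc_subset_Icc (by linarith [hp'.1, hp'.2]) le_rfl).trans hsub
    · intro O hO hqO
      refine (spread_left (cT.iterate (i + 1)) (iterate_fixed hTq _) hs''
        ⟨by linarith [hp'.1], by linarith [hp'.1]⟩ hO hqO).trans
        (iUnion_mono fun n => image_mono (inter_subset_inter_right _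
          ((Icc_subset_Icc (by linarith [hp'.2]) le_rfl).trans hsub)))

end Pool.Agent.MP4545.OM
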