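import Pool.Agent.Work.MP_4545a8_an.OM.Exact
import Pool.Agent.Work.MP_4545a8_an.NonCross2
import Pool.Agent.Work.MP_4545a8_an.Ex.Main1

set_option autoImplicit false

/-!
Transfer of the big minimal set from the exact factor to the given pair; the main theorem.
-/

namespace Pool.Agent.MP4545.OM

open Set Function Filter Topology
open Pool.Agent.MP4545

/-- words parallel to `(k, l)` move a fixed point of `f^k ∘ g^l` to finitely many points only -/
lemma ray_finite {X : Type*} {f g : X → X} (hfg : Function.Commute f g) {k l : ℕ}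
    (hkl : 0 < k + l) {x : X} (hx : f^[k] (g^[l] x) = x) :
    {z | ∃ i j : ℕ, i * l = j * k ∧ z = f^[i] (g^[j] x)}.Finite := by
  have key : ∀ n i j : ℕ, i + j = n → i * l = j * k →
      ∃ i' ≤ k, ∃ j' ≤ l, f^[i] (g^[j] x) = f^[i'] (g^[j'] x) := by
    intro n
    induction n using Nat.strong_induction_on with
    | _ n ih =>
      intro i j hij hl
      by_cases h : k ≤ i ∧ l ≤ j
      · obtain ⟨i, rfl⟩ := Nat.exists_eq_add_of_le h.1
        obtain ⟨j, rfl⟩ := Nat.exists_eq_add_of_le h.2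
        obtain ⟨i', hi', j', hj', e⟩ := ih (i + j) (by omega) i j rfl (by
          have : (k + i) * l = (l + j) * k := hl
          nlinarith)
        refine ⟨i', hi', j', hj', ?_⟩
        rw [← e, Nat.add_comm k i, Nat.add_comm l j, iterate_add_apply f i k,
          iterate_add_apply g j l, (hfg.iterate_iterate k j).eq, hx]
      · rw [not_and_or] at h
        push Not at h
        refine ⟨i, ?_, j, ?_, rfl⟩
        · rcases h with h | h
          · exact h.le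
          · by_contra hc
            push Not at hc
            have h1 : l * k ≥ l * k := le_rfl
            have h2 : j * k ≤ l * k := Nat.mul_le_mul_right k h.le
            have h3 : (k + 1) * l ≤ i * l := Nat.mul_le_mul_right l hc
            have h4 : 0 < l := by omega
            nlinarith
        · rcases h with h | h
          · by_contra hc
            push Not at hc
            have h2 : i * l ≤ k * l := Nat.mul_le_mul_right l h.le
            have h3 : (l + 1) * k ≤ j * k := Nat.mul_le_mul_right k hc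
            have h4 : 0 < k := by omega
            nlinarith
          · exact h.le
  refine ((Set.finite_Iic k).prod (Set.finite_Iic l) |>.image
    (fun w : ℕ × ℕ => f^[w.1] (g^[w.2] x))).subset ?_
  rintro z ⟨i, j, hij, rfl⟩
  obtain ⟨i', hi', j', hj', e⟩ := key _ i j rfl hij
  exact ⟨(i', j'), ⟨hi', hj'⟩, e.symm⟩

lemma open_uncountable {M : Set ℝ} (hM : Perfect M) {O : Set ℝ} (hO : IsOpen O)
    (hne : (O ∩ M).Nonempty) : ¬ (O ∩ M).Countable := by
  obtain ⟨x, hxO, hxM⟩ := hne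
  obtain ⟨r, hr, hball⟩ := Metric.nhds_basis_closedBall.mem_iff.1 (hO.mem_nhds hxO)
  have h1 : Preperfect (Metric.ball x r ∩ M) := hM.acc.open_inter Metric.isOpen_ball
  have h2 : Perfect (closure (Metric.ball x r ∩ M)) := h1.perfect_closure
  have h3 : closure (Metric.ball x r ∩ M) ⊆ O ∩ M := by
    intro y hy
    constructor
    · apply hball
      exact closure_minimal (inter_subset_left.trans Metric.ball_subset_closedBall)
        Metric.isClosed_closedBall hy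
    · exact closure_minimal inter_subset_right hM.closed hy
  intro hc
  exact perfect_uncountable h2 ⟨x, subset_closure ⟨Metric.mem_ball_self hr, hxM⟩⟩ (hc.mono h3)

/-- a point of `O ∩ M` which is a two-sided accumulation point of `M` -/
lemma exists_two {M : Set ℝ} (hM : Perfect M) {O : Set ℝ} (hO : IsOpen O)
    (hne : (O ∩ M).Nonempty) : ∃ t ∈ O ∩ M, (∀ δ > 0, ∃ y ∈ M, t < y ∧ y < t + δ) ∧
      (∀ δ > 0, ∃ y ∈ M, t - δ < y ∧ y < t) := by
  by_contra hcon
  push Not at hcon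
  apply open_uncountable hM hO hne
  refine (two_sided_countable M).mono ?_
  rintro t ⟨htO, htM⟩
  refine ⟨htM, ?_⟩
  rintro ⟨h1, h2⟩
  obtain ⟨δ, hδ, h3⟩ := hcon t ⟨htO, htM⟩ h1
  obtain ⟨y, hy, hy1, hy2⟩ := h2 δ hδ
  exact absurd hy2 (not_lt.2 (h3 y hy hy1))

variable {f g : ℝ → ℝ} {a b : ℝ}

/-- joint minimal sets without common periodic points are perfect -/
lemma jmin_perfect (S : Sys f g a b) (hno : NoCommon f g) {A M : Set ℝ} (hAab : A ⊆ Icc a b)
    (hM : JMin f g A M) : Perfect M := by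
  refine ⟨hM.closed, ?_⟩
  rw [preperfect_iff_nhds]
  intro m hm U hU
  by_contra hno'
  push Not at hno'
  obtain ⟨O, hOU, hO, hmO⟩ := mem_nhds_iff.1 hU
  have huniq : ∀ y ∈ M, y ∈ O → y = m := fun y hy hyO => hno' y ⟨hOU hyO, hy⟩
  obtain ⟨⟨p, hp, y, hy, hyO, hpO⟩, ⟨q, hq, z, hz, hzO, hqO⟩⟩ :=
    hM.ret S hAab hO ⟨m, hmO, hm⟩
  have e1 := huniq y hy hyO
  have e2 := huniq _ (hM.word p 0 hy) hpO
  have e3 := huniq z hz hzO
  have e4 := huniq _ (hM.word 0 q hz) hqO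
  rw [e1] at e2
  rw [e3] at e4
  exact hno m p q hp hq e2 e4

/-- Main theorem. -/
theorem oneMap_main (S : Sys f g a b) {k l : ℕ} (hkl : 0 < k + l)
    (H : ∀ M : Set ℝ, M ⊆ Icc a b → Perfect M → M.Nonempty → (∀ x ∈ M, f^[k] (g^[l] x) = x) →
      f '' M = M → g '' M = M →
      (∀ C ⊆ M, IsClosed C → C.Nonempty → (∀ x ∈ C, f x ∈ C) → (∀ x ∈ C, g x ∈ C) → C = M) →
      ∃ x y : ℝ, ∃ j : ℕ, 0 < j ∧
        MapsTo (f^[k] ∘ g^[l])^[j] (Icc x y ∩ Icc a b) (Icc x y) ∧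
        (M ∩ Ioo x y).Nonempty ∧ ¬ M ⊆ Icc x y) :
    ∃ x ∈ Icc a b, x ∈ periodicPts f ∩ periodicPts g := by
  by_contra hcon
  push Not at hcon
  have hfg : Function.Commute f g := fun x => S.comm x
  have hno : NoCommon f g := by
    intro x n m hn hm h1 h2
    have hx : x ∈ Icc a b := by
      obtain ⟨j, rfl⟩ : ∃ j, n = j + 1 := ⟨n - 1, by omega⟩
      rw [← h1, iterate_succ_apply']; exact S.rf _
    exact hcon x hx ⟨⟨n, hn, h1⟩, ⟨m, hm, h2⟩⟩
  have hab : a ≤ b := (S.rf 0).1.trans (S.rf 0).2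
  have hI0 : Ex.Inv f g a b (Icc a b) :=
    ⟨isClosed_Icc, ordConnected_Icc, ⟨a, le_rfl, hab⟩, Subset.rfl, fun x _ => S.rf x,
      fun x _ => S.rg x⟩
  obtain ⟨I, hI, -⟩ := Ex.exists_minInv S hI0
  obtain ⟨c, d, hcd, hIcd, hfI, hgI, F, G, φ, cφ, mφ, φc, φd, S', hnoF, hsemi, hex⟩ :=
    Ex.main1 S hno hI
  have hFG : Function.Commute F G := fun x => S'.comm x
  have hcdab : Icc c d ⊆ Icc a b := hIcd ▸ hI.sub
  have hex1 : Ex1 F G := by
    intro p q hp hpq hq
    have := hex 1 1 one_pos one_pos p q hp hpq hq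
    simpa using this
  obtain ⟨Mt, hMt⟩ := exists_bigMin S' hnoF hex1 hkl
  -- words
  have mf : ∀ n, MapsTo f^[n] (Icc c d) (Icc c d) := by
    intro n
    refine MapsTo.iterate (fun y hy => ?_) n
    rw [← hIcd, ← hfI, hIcd]
    exact mem_image_of_mem _ hy
  have mg : ∀ n, MapsTo g^[n] (Icc c d) (Icc c d) := by
    intro n
    refine MapsTo.iterate (fun y hy => ?_) n
    rw [← hIcd, ← hgI, hIcd]
    exact mem_image_of_mem _ hy
  have sf : ∀ n, ∀ t ∈ Icc c d, F^[n] (φ t) = φ (f^[n] t) := by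
    intro n
    induction n with
    | zero => intro t _; rfl
    | succ n ih =>
      intro t ht
      rw [iterate_succ_apply', iterate_succ_apply', ih t ht, (hsemi _ (mf n ht)).1]
  have sg : ∀ n, ∀ t ∈ Icc c d, G^[n] (φ t) = φ (g^[n] t) := by
    intro n
    induction n with
    | zero => intro t _; rfl
    | succ n ih =>
      intro t ht
      rw [iterate_succ_apply', iterate_succ_apply', ih t ht, (hsemi _ (mg n ht)).2]
  have sw : ∀ i j, ∀ t ∈ Icc c d, F^[i] (G^[j] (φ t)) = φ (f^[i] (g^[j] t)) := by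
    intro i j t ht
    rw [sg j t ht, sf i _ (mg j ht)]
  have mw : ∀ i j, MapsTo (f^[i] ∘ g^[j]) (Icc c d) (Icc c d) := fun i j =>
    (mf i).comp (mg j)
  have ch : Continuous (f^[k] ∘ g^[l]) := (S.cf.iterate k).comp (S.cg.iterate l)
  have mhj : ∀ n, MapsTo (f^[k] ∘ g^[l])^[n] (Icc c d) (Icc c d) := fun n =>
    MapsTo.iterate (mw k l) n
  have sh : ∀ n, ∀ t ∈ Icc c d, (F^[k] ∘ G^[l])^[n] (φ t) = φ ((f^[k] ∘ g^[l])^[n] t) := by
    intro n
    induction n with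
    | zero => intro t _; rfl
    | succ n ih =>
      intro t ht
      rw [iterate_succ_apply', iterate_succ_apply', ih t ht]
      exact sw k l _ (mhj n ht)
  -- the set `N`
  have hMtK : ∀ z ∈ Mt, F^[k] (G^[l] z) = z := fun z hz => (mem_iInter.1 (hMt.sub hz) 0).2
  have hMtB : ∀ z ∈ Mt, ∀ j : ℕ, z ∈ Big (F^[k] ∘ G^[l])^[j + 1] := fun z hz j =>
    (mem_iInter.1 (hMt.sub hz) j).1
  have hMt01 : Mt ⊆ Icc 0 1 := fun z hz => (hMtB z hz 0).1
  set N : Set ℝ := {t | t ∈ Icc c d ∧ φ t ∈ Mt ∧ f^[k] (g^[l] t) = t} with hN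
  have Ncl : IsClosed N :=
    isClosed_Icc.inter ((hMt.closed.preimage cφ).inter (isClosed_eq ch continuous_id))
  have Nab : N ⊆ Icc a b := fun t ht => hcdab ht.1
  have Nne : N.Nonempty := by
    obtain ⟨z, hz⟩ := hMt.ne
    have hz01 := hMt01 hz
    set C : Set ℝ := {t | t ∈ Icc c d ∧ φ t = z} with hC
    have Cne : C.Nonempty := by
      obtain ⟨t, ht, ht'⟩ := intermediate_value_Icc hcd.le cφ.continuousOn
        (show z ∈ Icc (φ c) (φ d) by rw [φc, φd]; exact hz01)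
      exact ⟨t, ht, ht'⟩
    have Ccl : IsClosed C := isClosed_Icc.inter (isClosed_eq cφ continuous_const)
    have Cc : IsCompact C := isCompact_Icc.of_isClosed_subset Ccl fun t ht => ht.1
    obtain ⟨u, hu, humin⟩ := Cc.exists_isLeast Cne
    obtain ⟨v, hv, hvmax⟩ := Cc.exists_isGreatest Cne
    have huv : u ≤ v := humin hv
    have hCI : ∀ t ∈ Icc u v, t ∈ C := by
      intro t ht
      refine ⟨⟨hu.1.1.trans ht.1, ht.2.trans hv.1.2⟩, le_antisymm ?_ ?_⟩
      · rw [← hv.2]; exact mφ ht.2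
      · rw [← hu.2]; exact mφ ht.1
    have hCm : ∀ t ∈ C, f^[k] (g^[l] t) ∈ C := by
      intro t ht
      refine ⟨mw k l ht.1, ?_⟩
      rw [← sw k l t ht.1, ht.2]
      exact hMtK z hz
    obtain ⟨t, ht, ht'⟩ := ivt_zero (F := fun t => (f^[k] ∘ g^[l]) t - t)
      (ch.sub continuous_id) huv
      (by have := humin (hCm u (hCI u ⟨le_rfl, huv⟩)); simp only [comp_apply]; linarith)
      (by have := hvmax (hCm v (hCI v ⟨huv, le_rfl⟩)); simp only [comp_apply]; linarith)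
    simp only [comp_apply] at ht'
    refine ⟨t, (hCI t ht).1, ?_, by linarith⟩
    rw [(hCI t ht).2]; exact hz
  have Nf : ∀ t ∈ N, f t ∈ N := by
    rintro t ⟨h1, h2, h3⟩
    refine ⟨mf 1 h1, ?_, ?_⟩
    · rw [← (hsemi t h1).1]; exact hMt.invf _ h2
    · have := (word_comm hfg k l).1.eq t
      simp only [comp_apply] at this
      rw [this, h3]
  have Ng : ∀ t ∈ N, g t ∈ N := by
    rintro t ⟨h1, h2, h3⟩
    refine ⟨mg 1 h1, ?_, ?_⟩
    · rw [← (hsemi t h1).2]; exact hMt.invg _ h2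
    · have := (word_comm hfg k l).2.eq t
      simp only [comp_apply] at this
      rw [this, h3]
  obtain ⟨M, hM⟩ := exists_jmin (f := f) (g := g) Ncl Nne Nab Nf Ng
  have hMper := jmin_perfect S hno Nab hM
  have hMcd : M ⊆ Icc c d := fun t ht => (hM.sub ht).1
  have hMk : ∀ t ∈ M, f^[k] (g^[l] t) = t := fun t ht => (hM.sub ht).2.2
  have hMcomp : IsCompact M := isCompact_Icc.of_isClosed_subset hM.closed hMcd
  -- nondegenerate fibres
  have fib : ∀ s s' : ℝ, s ∈ Icc c d → s' ∈ Icc c d → φ s = φ s' → M ∩ Ioo s s' = ∅ := by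
    intro s s' hs hs' hss
    by_contra hne
    rw [← ne_eq, ← nonempty_iff_ne_empty] at hne
    obtain ⟨x, hxM, hx⟩ := hne
    have hconst : ∀ y ∈ Ioo s s', φ y = φ x := by
      intro y hy
      have h1 : φ s ≤ φ y := mφ hy.1.le
      have h2 : φ y ≤ φ s' := mφ hy.2.le
      have h3 : φ s ≤ φ x := mφ hx.1.le
      have h4 : φ x ≤ φ s' := mφ hx.2.le
      linarith
    set V : Set ℝ := {z | ∃ i j : ℕ, i * l = j * k ∧ z = f^[i] (g^[j] x)} with hV
    have Vfin : V.Finite := ray_finite hfg hkl (hMk x hxM)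
    have hsub : ∀ y ∈ M, y ∈ Ioo s s' → y ∈ V := by
      intro y hyM hy
      by_contra hyV
      obtain ⟨w, hw1, hw2⟩ := hM.enter S (isOpen_Ioo.sdiff Vfin.isClosed)
        ⟨y, ⟨hy, hyV⟩, hyM⟩ hxM
      apply hw2
      refine ⟨w.1, w.2, ?_, rfl⟩
      by_contra hdet
      have e1 : F^[w.1] (G^[w.2] (φ x)) = φ x := by
        rw [sw _ _ x (hMcd hxM)]
        exact hconst _ hw1
      have e2 : F^[k] (G^[l] (φ x)) = φ x := hMtK _ (hM.sub hxM).2.1
      obtain ⟨⟨n, hn, h1⟩, ⟨m, hm, h2⟩⟩ := indep hFG (s := w.1) (t := w.2) (s' := k) (t' := l)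
        hdet (x := φ x) one_pos one_pos (by simpa using e1) (by simpa using e2)
      exact hnoF _ n m hn hm h1 h2
    have hacc := preperfect_iff_nhds.1 hMper.acc x hxM (Ioo s s' \ (V \ {x}))
      ((isOpen_Ioo.sdiff (Vfin.subset sdiff_subset).isClosed).mem_nhds
        ⟨hx, fun h => h.2 rfl⟩)
    obtain ⟨y, ⟨⟨hy1, hy2⟩, hyM⟩, hyx⟩ := hacc
    exact hy2 ⟨hsub y hyM hy1, hyx⟩
  have inj : ∀ t ∈ M, (∀ δ > 0, ∃ y ∈ M, t < y ∧ y < t + δ) →
      (∀ δ > 0, ∃ y ∈ M, t - δ < y ∧ y < t) → c < t ∧ t < d ∧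
      (∀ u ∈ Icc c d, u < t → φ u < φ t) ∧ (∀ u ∈ Icc c d, t < u → φ t < φ u) := by
    intro t ht h1 h2
    obtain ⟨y1, hy1, hy1', -⟩ := h1 1 one_pos
    obtain ⟨y2, hy2, -, hy2'⟩ := h2 1 one_pos
    refine ⟨lt_of_le_of_lt (hMcd hy2).1 hy2', lt_of_lt_of_le hy1' (hMcd hy1).2, ?_, ?_⟩
    · intro u hu hut
      refine lt_of_le_of_ne (mφ hut.le) fun he => ?_
      obtain ⟨y, hy, hy3, hy4⟩ := h2 (t - u) (by linarith)
      have := fib u t hu (hMcd ht) he
      exact (this.le ⟨hy, by linarith, hy4⟩ : y ∈ (∅ : Set ℝ)).elim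
    · intro u hu hut
      refine lt_of_le_of_ne (mφ hut.le) fun he => ?_
      obtain ⟨y, hy, hy3, hy4⟩ := h1 (u - t) (by linarith)
      have := fib t u (hMcd ht) hu he
      exact (this.le ⟨hy, hy3, by linarith⟩ : y ∈ (∅ : Set ℝ)).elim
  -- use the hypothesis
  have hfM : f '' M = M := by
    apply Subset.antisymm
    · rintro _ ⟨x, hx, rfl⟩; exact hM.invf x hx
    · refine hM.min _ ((hMcomp.image S.cf).isClosed) (hM.ne.image _) ?_ ?_ ?_
      · rintro _ ⟨x, hx, rfl⟩; exact hM.invf x hx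
      · rintro _ ⟨x, hx, rfl⟩; exact ⟨f x, hM.invf x hx, rfl⟩
      · rintro _ ⟨x, hx, rfl⟩; exact ⟨g x, hM.invg x hx, S.comm x⟩
  have hgM : g '' M = M := by
    apply Subset.antisymm
    · rintro _ ⟨x, hx, rfl⟩; exact hM.invg x hx
    · refine hM.min _ ((hMcomp.image S.cg).isClosed) (hM.ne.image _) ?_ ?_ ?_
      · rintro _ ⟨x, hx, rfl⟩; exact hM.invg x hx
      · rintro _ ⟨x, hx, rfl⟩; exact ⟨f x, hM.invf x hx, (S.comm x).symm⟩
      · rintro _ ⟨x, hx, rfl⟩; exact ⟨g x, hM.invg x hx, rfl⟩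
  obtain ⟨x, y, j, hj, hmap, hMxy, hnot⟩ := H M (hMcd.trans hcdab) hMper hM.ne hMk hfM hgM
    (fun C hC1 hC2 hC3 hC4 hC5 => Subset.antisymm hC1 (hM.min C hC2 hC3 hC1 hC4 hC5))
  obtain ⟨i, rfl⟩ : ∃ i, j = i + 1 := ⟨j - 1, by omega⟩
  obtain ⟨t, ⟨htO, htM⟩, ht1, ht2⟩ := exists_two hMper (isOpen_Ioo (a := x) (b := y))
    (by rwa [inter_comm])
  obtain ⟨hct, htd, il, ir⟩ := inj t htM ht1 ht2
  set x' := max x c with hx'
  set y' := min y d with hy'
  have hxt : x' < t := max_lt htO.1 hct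
  have hty : t < y' := lt_min htO.2 htd
  have hx'cd : x' ∈ Icc c d := ⟨le_max_right _ _, hxt.le.trans htd.le⟩
  have hy'cd : y' ∈ Icc c d := ⟨hct.le.trans hty.le, min_le_right _ _⟩
  have hφx : φ x' < φ t := il x' hx'cd hxt
  have hφy : φ t < φ y' := ir y' hy'cd hty
  have hsub' : Icc x' y' ⊆ Icc c d := Icc_subset_Icc hx'cd.1 hy'cd.2
  have hmap' : MapsTo (f^[k] ∘ g^[l])^[i + 1] (Icc x' y') (Icc x' y') := by
    intro u hu
    have h1 : (f^[k] ∘ g^[l])^[i + 1] u ∈ Icc x y := hmap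
      ⟨⟨(le_max_left _ _).trans hu.1, hu.2.trans (min_le_left _ _)⟩, hcdab (hsub' hu)⟩
    have h2 := mhj (i + 1) (hsub' hu)
    exact ⟨max_le h1.1 h2.1, le_min h1.2 h2.2⟩
  have hbig : Icc (0 : ℝ) 1 ⊆ Icc (φ x') (φ y') := by
    refine ((hMtB _ (hM.sub htM).2.1 i).2 (Ioo (φ x') (φ y')) isOpen_Ioo
      ⟨hφx, hφy⟩).trans (closure_minimal ?_ isClosed_Icc)
    apply iUnion_subset
    rintro n _ ⟨z, ⟨hz1, hz2⟩, rfl⟩
    obtain ⟨u, hu, rfl⟩ := intermediate_value_Icc (hxt.le.trans hty.le) cφ.continuousOn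
      (Ioo_subset_Icc_self hz1)
    rw [← iterate_mul, sh _ u (hsub' hu), iterate_mul]
    have h3 := hmap'.iterate n hu
    exact ⟨mφ h3.1, mφ h3.2⟩
  have h0 : φ x' ≤ 0 := (hbig ⟨le_rfl, zero_le_one⟩).1
  have h1 : 1 ≤ φ y' := (hbig ⟨zero_le_one, le_rfl⟩).2
  rw [not_subset] at hnot
  obtain ⟨m, hmM, hm⟩ := hnot
  rw [mem_Icc, not_and_or] at hm
  push Not at hm
  rcases hm with hm | hm
  · obtain ⟨t2, ⟨ht2O, ht2M⟩, h3, h4⟩ := exists_two hMper (isOpen_Iio (a := x)) ⟨m, hm, hmM⟩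
    obtain ⟨hc2, hd2, il2, ir2⟩ := inj t2 ht2M h3 h4
    have h5 := ir2 x' hx'cd (lt_of_lt_of_le ht2O (le_max_left _ _))
    have h6 : φ c ≤ φ t2 := mφ hc2.le
    linarith
  · obtain ⟨t2, ⟨ht2O, ht2M⟩, h3, h4⟩ := exists_two hMper (isOpen_Ioi (a := y)) ⟨m, hm, hmM⟩
    obtain ⟨hc2, hd2, il2, ir2⟩ := inj t2 ht2M h3 h4
    have h5 := il2 y' hy'cd (lt_of_le_of_lt (min_le_left _ _) ht2O)
    have h6 : φ t2 ≤ φ d := mφ hd2.le
    linarith

end Pool.Agent.MP4545.OM
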